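import Pool.Agent.N858.P5.AbsFive
import Pool.Agent.N858.PC.FinalOp
import Pool.Agent.N858.PC.FinalSys

set_option autoImplicit false

/-!
Operators of order two and systems of rank two with rough denominators and at most five points with
non-integral differences of exponents.
-/

open Finset Polynomial

namespace Pool.Agent.N858.P5

open Pool.Agent.N858.PC

section defs

variable {X : Type*} [Fintype X]

/-- The difference of the two exponents is an integer at all but at most five points. -/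
def AtMostFive (e : X → Fin 2 → ℚ) : Prop :=
  ∃ A : Finset X, A.card ≤ 5 ∧ ∀ x, x ∉ A → ∃ z : ℤ, e x 0 - e x 1 = z

/-- There is a choice of one exponent at every point with integral sum. -/
def Resonance (e : X → Fin 2 → ℚ) : Prop :=
  ∃ (κ : X → Fin 2) (w : ℤ), ∑ x, e x (κ x) = w

end defs

theorem resonance (m : ℕ) : ∃ B : ℕ, ∀ (lam : Fin m → Fin 2 → ℚ)
    (phi : Fin 2 → ℚ) (N : ℕ) (F : ℤ), 0 < N → ∑ j, ∑ l, lam j l = ∑ l, phi l + F →
    Rough B (allExp lam phi) → AtMostFive (allExp lam phi) →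
    (∀ a : ℤ, IsCoprime a (N : ℤ) → Pool.Agent.Y227.SS.SemistableWeights ℂ
      (fun j l => (a : ℝ) * lam j l) (fun l => (a : ℝ) * phi l)) →
    Resonance (allExp lam phi) := by
  obtain ⟨B, hB⟩ := abs_five (Option (Fin m))
  refine ⟨B, fun lam phi N F hN hF hR h5 hSS => ?_⟩
  obtain ⟨q, hq, hrough, hd⟩ := hR
  obtain ⟨A, hA, hAe⟩ := h5
  have hFa : ∀ a : ℤ, ∑ j, ∑ l, (a : ℝ) * lam j l = ∑ l, (a : ℝ) * phi l + ((a * F : ℤ) : ℝ) := by
    intro a
    have h1 := congrArg (fun r : ℚ => (a : ℝ) * (r : ℝ)) hF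
    push_cast at h1 ⊢
    simp only [← mul_sum]
    linarith
  have htr : ∃ w : ℤ, ∑ x, ∑ l, allExp lam phi x l = w := by
    refine ⟨F, ?_⟩
    rw [Fintype.sum_option]
    simp only [allExp, sum_neg_distrib, hF]
    ring
  exact hB (allExp lam phi) q N A hq hN hrough hd htr (fun a ha => by
    rw [allExp_mul]
    exact lineSS_of (hSS a ha) _ (hFa a)) hA hAe

section op

open Pool.Agent.W432.WB Pool.Agent.W432.TC Pool.Agent.W432.HK Pool.Agent.Y227.SS
open Pool.Agent.Y227.SO

theorem five_op (m : ℕ) (hm : 1 ≤ m) :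
    ∃ (ε : ℝ) (B : ℕ), 0 < ε ∧ ∀ (b : Fin (2 + 1) → ℤ[X]) (α : Fin m → AlgebraicClosure ℚ),
      (∀ lam phi, FuchsianWith b α lam phi → Rough B (allExp lam phi) →
        AtMostFive (allExp lam phi) →
        (¬ Cond b ∧ ¬ FewBad b ε ∧ ∀ N, CommonDen lam phi N → BadPrimes b N ε) ∨
        Resonance (allExp lam phi)) ∧
      (ZerosAmong b α → FewBad b ε → ∃ lam phi, FuchsianWith b α lam phi ∧
        (Rough B (allExp lam phi) → AtMostFive (allExp lam phi) →
          Resonance (allExp lam phi))) := by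
  obtain ⟨ε, 𝒟, hε, -, hden⟩ := density m 2 hm (by norm_num)
  obtain ⟨B, hB⟩ := resonance m
  have key : ∀ (b : Fin (2 + 1) → ℤ[X]) (α : Fin m → AlgebraicClosure ℚ) lam phi,
      FuchsianWith b α lam phi → Rough B (allExp lam phi) → AtMostFive (allExp lam phi) →
      ∀ N, CommonDen lam phi N → ConjGood b lam phi N → Resonance (allExp lam phi) := by
    intro b α lam phi hF hR h5 N hN hG
    obtain ⟨F, hFu⟩ := fuchs_int hm (by norm_num) hF
    exact hB lam phi N F hN.1 hFu hR h5 fun a ha => (hG a ha).2.1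
  refine ⟨min (ε / 2) ε, B, lt_min (by positivity) hε, fun b α => ⟨fun lam phi hF hR h5 => ?_,
    fun hZ hfew => ?_⟩⟩
  · obtain ⟨N₀, hN₀⟩ := exists_commonDen lam phi
    by_cases hall : ∀ N, CommonDen lam phi N → BadPrimes b N ε
    · left
      refine ⟨not_cond hN₀.1 hε (hall N₀ hN₀), fun hfew => ?_, fun N hN => ?_⟩
      · exact (hall N₀ hN₀).dens hN₀.1 hε (hfew.mono (min_le_left _ _))
      · exact (hall N hN).mono (min_le_right _ _)
    · right
      push Not at hall
      obtain ⟨N, hN, hbad⟩ := hall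
      rcases (hden b α).1 lam phi N hF hN with h | ⟨h, -⟩
      · exact absurd h hbad
      · exact key b α lam phi hF hR h5 N hN h
  · obtain ⟨lam, phi, hF, ⟨N, hN⟩, hG, -⟩ := (hden b α).2 hZ (hfew.mono (min_le_right _ _))
    exact ⟨lam, phi, hF, fun hR h5 => key b α lam phi hF hR h5 N hN (hG N hN)⟩

end op

section sys

open Pool.Agent.W432.PC Pool.Agent.W432.TC Pool.Agent.Y227.SS

universe u

theorem five_sys (n : ℕ) :
    ∃ (ε : ℝ) (B : ℕ), 0 < ε ∧
      ∀ (R : Type u) [CommRing R] [IsDomain R] [CharZero R] [Algebra.FiniteType ℤ R]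
        (α : Fin n → R) (A : Fin n → Matrix (Fin 2) (Fin 2) R)
        (lam : Fin n → Fin 2 → ℚ) (phi : Fin 2 → ℚ) (N : ℕ),
        (∀ i j, i ≠ j → IsUnit (α i - α j)) →
        (∀ j, HasExponents (A j) (lam j)) → HasExponents (∑ j, A j) phi →
        0 < N → (∀ j l, ∃ m : ℤ, (N : ℚ) * lam j l = m) → (∀ l, ∃ m : ℤ, (N : ℚ) * phi l = m) →
        Rough B (allExp lam phi) → AtMostFive (allExp lam phi) →
        Resonance (allExp lam phi) ∨ (BadClasses α A N ε 1 ∧ ¬ CondII α A) := by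
  obtain ⟨ε, 𝒟, hε, -, huni⟩ := uniform.{u} n 2
  obtain ⟨B, hB⟩ := resonance n
  refine ⟨ε, B, hε, ?_⟩
  intro R _ _ _ _ α A lam phi N hα hlam hphi hN hNlam hNphi hR h5
  have hF : ∑ j, ∑ l, lam j l = ∑ l, phi l + ((0 : ℤ) : ℚ) := by
    rw [sum_exponents hlam hphi]; simp
  rcases (huni R α A lam phi N hα hlam hphi hN hNlam hNphi).1 with ⟨-, h⟩ | h
  · exact Or.inl (hB lam phi N 0 hN hF hR h5 h)
  · exact Or.inr h

end sys

end Pool.Agent.N858.P5
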