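import Pool.Agent.N858.P5.Gen
import Pool.Agent.N858.PC.Abs

set_option autoImplicit false

/-!
Exponents of rank two with rough denominators and at most five points with non-integral differences:
if all conjugates satisfy the inequalities for line subbundles, then there is a resonance.
-/

open Finset Filter

namespace Pool.Agent.N858.P5

open Pool.Agent.N858.PC

lemma common_den {ι : Type*} [Fintype ι] (r : ι → ℚ) :
    ∃ (m : ℕ) (V : ι → ℤ), 0 < m ∧ ∀ i, (m : ℚ) * r i = V i := by
  classical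
  have h : ∀ i, ∃ z : ℤ, ((∏ i, (r i).den : ℕ) : ℚ) * r i = z := by
    intro i
    refine ⟨(∏ k ∈ univ.erase i, (r k).den : ℕ) * (r i).num, ?_⟩
    rw [← mul_prod_erase univ (fun i => (r i).den) (mem_univ i)]
    push_cast
    have h2 := Rat.den_mul_eq_num (r i)
    calc ((r i).den : ℚ) * (∏ k ∈ univ.erase i, ((r k).den : ℚ)) * r i
        = (∏ k ∈ univ.erase i, ((r k).den : ℚ)) * ((r i).den * r i) := by ring
      _ = _ := by rw [h2]
  choose V hV using h
  exact ⟨∏ i, (r i).den, V, Finset.prod_pos fun i _ => (r i).den_pos, hV⟩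

variable {X : Type*} [Fintype X] [DecidableEq X]

/-- The relation of a choice of exponents. -/
def del (κ : X → Fin 2) (t : X × Fin 2) : ℤ := if t.2 = κ t.1 then 1 else 0

omit [DecidableEq X] in
lemma sum_del {R : Type*} [AddCommMonoid R] (κ : X → Fin 2) (f : X × Fin 2 → R) :
    ∑ t, (if t.2 = κ t.1 then f t else 0) = ∑ x, f (x, κ x) := by
  rw [Fintype.sum_prod_type]
  refine sum_congr rfl fun x _ => ?_
  rw [sum_eq_single (κ x)]
  · simp
  · intro l _ hl
    simp [hl]
  · simp

/-- The resonance in the lattice of relations. -/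
lemma exists_del [Nonempty X] (S : Seq X 2) (F : Ultrafilter ℕ) (hF : (F : Filter ℕ) ≤ atTop)
    (A : Finset X) (hA : A.card ≤ 5)
    (hAR : ∀ x, x ∉ A → (Pi.single (x, 0) 1 - Pi.single (x, 1) 1 : X × Fin 2 → ℤ) ∈ S.R F) :
    ∃ κ : X → Fin 2, del κ ∈ S.R F := by
  by_contra hno
  push Not at hno
  have hne : ∀ κ : X → Fin 2, ∑ x, S.cl F (x, κ x) ≠ 0 := by
    intro κ h
    have h1 : (fun t => (del κ t : ℚ)) ∈ S.U F := by
      rw [← Submodule.ker_mkQ (S.U F), LinearMap.mem_ker, ← S.sum_cl F, ← h,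
        ← sum_del κ (fun t => S.cl F t)]
      refine sum_congr rfl fun t _ => ?_
      unfold del
      split_ifs <;> simp
    obtain ⟨d, hd, c, hc, hdc⟩ := S.clear F h1
    apply hno κ
    refine rel_sat hF (q := S.q) (E := fun j (t : X × Fin 2) => S.E j t.1 t.2)
      (fun j i => S.hE j i.1 i.2) S.rough (d := d) hd ?_
    have : (fun i : X × Fin 2 => (d : ℤ) * del κ i) = c := by
      funext t
      have := hdc t
      exact_mod_cast this
    rw [this]
    exact hc
  obtain ⟨f, hf⟩ := Module.exists_dual_forall_apply_ne_zero (K := ℚ)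
    (fun κ : X → Fin 2 => ∑ x, S.cl F (x, κ x)) hne
  obtain ⟨m, V, hm, hV⟩ := common_den fun t : X × Fin 2 => f (S.cl F t)
  have hm' : (0 : ℚ) < m := by exact_mod_cast hm
  -- the trace
  have htr : ∑ x, (V (x, 0) + V (x, 1)) = 0 := by
    have h1 : ∑ t : X × Fin 2, f (S.cl F t) = 0 := by
      have h2 : (fun _ => (1 : ℚ)) ∈ S.U F :=
        Submodule.subset_span ⟨_, S.trace_mem F, by simp⟩
      rw [← Submodule.ker_mkQ (S.U F), LinearMap.mem_ker, ← S.sum_cl F] at h2
      have h3 := congrArg f h2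
      simpa [map_sum] using h3
    have h2 : ∑ t : X × Fin 2, (V t : ℚ) = 0 := by
      rw [← mul_zero (m : ℚ), ← h1, mul_sum]
      exact sum_congr rfl fun t _ => (hV t).symm
    have h3 : ∑ t : X × Fin 2, V t = 0 := by exact_mod_cast h2
    rw [Fintype.sum_prod_type] at h3
    simpa [Fin.sum_univ_two] using h3
  have hG : ∀ t : ℝ, Good fun x => t * (((fun x => V (x, 0) - V (x, 1)) x : ℤ) : ℝ) := by
    intro t
    have hAnn : S.Ann F (fun i => t * (V i : ℝ)) := by
      intro c hc
      refine ⟨0, ?_⟩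
      rw [Int.cast_zero, ← S.ann_of_form F f (t * m) c hc]
      refine sum_congr rfl fun i _ => ?_
      have h1 : ((m : ℚ) : ℝ) * ((f (S.cl F i) : ℚ) : ℝ) = ((V i : ℚ) : ℝ) := by
        exact_mod_cast congrArg (fun r : ℚ => (r : ℝ)) (hV i)
      push_cast at h1
      show (c i : ℝ) * (t * (V i : ℝ)) = _
      rw [← h1]
      ring
    have h1 := S.good F hF (by norm_num) (y := fun i => t * (V i : ℝ)) hAnn
    have h2 := good_of_line h1 (by
      simp only [Fin.sum_univ_two, ← mul_sum]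
      have h3 : ((∑ x, (V (x, 0) + V (x, 1)) : ℤ) : ℝ) = 0 := by rw [htr]; simp
      push_cast at h3
      rw [h3, mul_zero])
    have e : (fun x => t * (V (x, 0) : ℝ) - t * (V (x, 1) : ℝ)) =
        fun x => t * (((fun x => V (x, 0) - V (x, 1)) x : ℤ) : ℝ) := by
      funext x
      push_cast
      ring
    rw [← e]
    exact h2
  have h0 : ∀ x, x ∉ A → V (x, 0) - V (x, 1) = 0 := by
    intro x hx
    have h1 : S.cl F (x, 0) - S.cl F (x, 1) = 0 := by
      unfold Seq.cl
      rw [← map_sub, Submodule.mkQ_apply, Submodule.Quotient.mk_eq_zero]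
      refine Submodule.subset_span ⟨_, hAR x hx, ?_⟩
      funext i
      simp only [Pi.sub_apply]
      push_cast
      congr 1
      · by_cases hi : i = (x, 0)
        · subst hi; simp
        · simp [Pi.single_eq_of_ne hi]
      · by_cases hi : i = (x, 1)
        · subst hi; simp
        · simp [Pi.single_eq_of_ne hi]
    have h2 := congrArg f h1
    rw [map_sub, map_zero] at h2
    have h3 : (V (x, 0) : ℚ) - V (x, 1) = 0 := by
      rw [← hV, ← hV, ← mul_sub, h2, mul_zero]
    exact_mod_cast h3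
  obtain ⟨s, hs⟩ := five_gen A hA h0 hG
  apply hf (fun x => if s x then 0 else 1)
  rw [map_sum]
  have h1 : (m : ℚ) * ∑ x, f (S.cl F (x, if s x then 0 else 1)) = 0 := by
    rw [mul_sum]
    have e : ∀ x, (m : ℚ) * f (S.cl F (x, if s x then 0 else 1)) =
        (((V (x, 0) + V (x, 1)) + sg (s x) * (V (x, 0) - V (x, 1)) : ℤ) : ℚ) / 2 := by
      intro x
      rw [hV]
      cases s x
      · simp only [Bool.false_eq_true, if_false, sg_false]
        push_cast
        ring
      · simp only [if_true, sg_true]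
        push_cast
        ring
    rw [sum_congr rfl fun x _ => e x, ← sum_div, ← Int.cast_sum, sum_add_distrib, htr, hs]
    simp
  rcases mul_eq_zero.1 h1 with h | h
  · exact absurd h hm'.ne'
  · exact h

/-- Resonance. -/
theorem abs_five (X : Type*) [Fintype X] [DecidableEq X] [Nonempty X] :
    ∃ B : ℕ, ∀ (e : X → Fin 2 → ℚ) (q N : ℕ) (A : Finset X), 0 < q → 0 < N →
      (∀ p : ℕ, p.Prime → p ∣ q → B < p) →
      (∀ x l l', ∃ w : ℤ, (q : ℚ) * (e x l - e x l') = w) →
      (∃ w : ℤ, ∑ x, ∑ l, e x l = w) →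
      (∀ a : ℤ, IsCoprime a (N : ℤ) → LineSS fun x l => (a : ℝ) * e x l) →
      A.card ≤ 5 → (∀ x, x ∉ A → ∃ z : ℤ, e x 0 - e x 1 = z) →
      ∃ (κ : X → Fin 2) (w : ℤ), ∑ x, e x (κ x) = w := by
  by_contra hcon
  push Not at hcon
  choose e q N A hq hN hrough hd ht hSS hA hAe hfail using fun j : ℕ => hcon (j + 2)
  have hnorm : ∀ j, ∃ (E : X → Fin 2 → ℚ) (ε : X → ℚ), (∀ x l, e j x l = E x l + ε x) ∧
      (∀ x l, ∃ z : ℤ, (q j : ℚ) * E x l = z) ∧ ∃ k : ℤ, ((2 : ℕ) : ℚ) * ∑ x, ε x = k := fun j =>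
    normalize (by norm_num) (hq j) (coprime_rough (hrough j) (by norm_num) (by omega)) (hd j) (ht j)
  choose E ε he hE hε using hnorm
  let S : Seq X 2 :=
    { e := e, E := E, ε := ε, q := q, N := N, hq := hq, hN := hN
      rough := fun j p hp hpq => by have := hrough j p hp hpq; omega
      he := he, hE := hE, hε := hε, htr := ht, hSS := hSS }
  set F : Ultrafilter ℕ := Filter.hyperfilter ℕ with hFdef
  have hF : (F : Filter ℕ) ≤ atTop := Nat.hyperfilter_le_atTop
  -- the set of points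
  obtain ⟨A₀, hA₀⟩ : ∃ A₀ : Finset X, ∀ᶠ j in (F : Filter ℕ), A j = A₀ := by
    by_contra hno
    have h1 : ∀ A₀ : Finset X, ∀ᶠ j in (F : Filter ℕ), ¬ A j = A₀ := fun A₀ =>
      Ultrafilter.eventually_not.2 fun h => hno ⟨A₀, h⟩
    obtain ⟨j, hj⟩ := (Filter.eventually_all.2 h1).exists
    exact hj (A j) rfl
  have hA₀c : A₀.card ≤ 5 := by
    obtain ⟨j, hj⟩ := hA₀.exists
    rw [← hj]
    exact hA j
  obtain ⟨κ, hκ⟩ := exists_del S F hF A₀ hA₀c (by
    intro x hx
    filter_upwards [hA₀] with j hj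
    obtain ⟨z, hz⟩ := hAe j x (by rw [hj]; exact hx)
    refine ⟨z, ?_⟩
    rw [← hz, he, he]
    have e1 : ∀ i : X × Fin 2, (((Pi.single (x, 0) 1 - Pi.single (x, 1) 1 : X × Fin 2 → ℤ) i : ℤ) : ℚ) *
        S.E j i.1 i.2 = (if i = (x, 0) then E j i.1 i.2 else 0) -
          (if i = (x, 1) then E j i.1 i.2 else 0) := by
      intro i
      simp only [Pi.sub_apply, Pi.single_apply]
      show _ * E j i.1 i.2 = _
      split_ifs <;> simp
    rw [sum_congr rfl fun i _ => e1 i, sum_sub_distrib, sum_ite_eq', sum_ite_eq',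
      if_pos (mem_univ _), if_pos (mem_univ _)]
    ring)
  have h1 := int_of_degree S F hF (by norm_num) hκ (d := 1) (by
    intro x
    unfold del
    simp)
  obtain ⟨j, w, hw⟩ := h1.exists
  apply hfail j κ w
  rw [← hw]
  refine sum_congr rfl fun x _ => ?_
  show e j x (κ x) = ∑ l, ((del κ (x, l) : ℤ) : ℚ) * e j x l
  unfold del
  simp

end Pool.Agent.N858.P5
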