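import Pool.Agent.N858.P5.Four

set_option autoImplicit false

/-!
Rank one families of differences of exponents at five points are resonant.
-/

open Finset

namespace Pool.Agent.N858.P5

lemma mult_bound {m S k : ℤ} (hm : 0 < m) (hS : S + m = 2 * m * k) (h1 : S < 5 * m)
    (h2 : -(5 * m) < S) : k = -1 ∨ k = 0 ∨ k = 1 ∨ k = 2 := by
  have h3 : k < 3 := by
    by_contra h
    push Not at h
    nlinarith
  have h4 : -2 < k := by
    by_contra h
    push Not at h
    nlinarith
  omega

/-- Arithmetic: the two relations force a resonance. -/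
lemma arith {a0 a1 a2 a3 a4 : ℤ} (h4 : 0 ≤ a4) (h43 : a4 ≤ a3) (h32 : a3 ≤ a2) (h21 : a2 ≤ a1)
    (h10 : a1 ≤ a0) (h0 : 0 < a0)
    (q0 : ∃ e : S4, 2 * a0 ∣ sg e.1 * a1 + sg e.2.1 * a2 + sg e.2.2.1 * a3 + sg e.2.2.2 * a4 + a0)
    (q1 : 0 < a1 →
      ∃ e : S4, 2 * a1 ∣ sg e.1 * a0 + sg e.2.1 * a2 + sg e.2.2.1 * a3 + sg e.2.2.2 * a4 + a1) :
    ∃ e : S4, sg e.1 * a1 + sg e.2.1 * a2 + sg e.2.2.1 * a3 + sg e.2.2.2 * a4 + a0 = 0 := by
  have hfin : (∃ (s1 s2 s3 s4 : Bool), sg s1 * a1 + sg s2 * a2 + sg s3 * a3 + sg s4 * a4 + a0 = 0) →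
      ∃ e : S4, sg e.1 * a1 + sg e.2.1 * a2 + sg e.2.2.1 * a3 + sg e.2.2.2 * a4 + a0 = 0 := by
    rintro ⟨s1, s2, s3, s4, h⟩
    exact ⟨(s1, s2, s3, s4), h⟩
  apply hfin
  by_contra hno
  push Not at hno
  have n1 := hno false false false false
  have n2 := hno false false false true
  have n3 := hno false false true false
  have n4 := hno false false true true
  have n5 := hno false true false false
  have n6 := hno false true false true
  have n7 := hno false true true false
  have n8 := hno false true true true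
  have n9 := hno true false false false
  have n10 := hno true false false true
  have n11 := hno true false true false
  have n12 := hno true false true true
  have n13 := hno true true false false
  have n14 := hno true true false true
  have n15 := hno true true true false
  have n16 := hno true true true true
  simp only [sg_true, sg_false] at n1 n2 n3 n4 n5 n6 n7 n8 n9 n10 n11 n12 n13 n14 n15 n16
  clear hno hfin
  have hsum : a1 + a2 + a3 + a4 = 3 * a0 := by
    obtain ⟨⟨s1, s2, s3, s4⟩, k, hk⟩ := q0
    clear q1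
    rcases mult_bound h0 hk
      (by cases s1 <;> cases s2 <;> cases s3 <;> cases s4 <;> simp only [sg_true, sg_false] <;> omega)
      (by cases s1 <;> cases s2 <;> cases s3 <;> cases s4 <;> simp only [sg_true, sg_false] <;> omega)
      with rfl | rfl | rfl | rfl <;>
    cases s1 <;> cases s2 <;> cases s3 <;> cases s4 <;> simp only [sg_true, sg_false] at hk <;> omega
  clear q0
  have h1 : 0 < a1 := by omega
  obtain ⟨⟨s1, s2, s3, s4⟩, k, hk⟩ := q1 h1
  rcases mult_bound h1 hk
    (by cases s1 <;> cases s2 <;> cases s3 <;> cases s4 <;> simp only [sg_true, sg_false] <;> omega)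
    (by cases s1 <;> cases s2 <;> cases s3 <;> cases s4 <;> simp only [sg_true, sg_false] <;> omega)
    with rfl | rfl | rfl | rfl <;>
  cases s1 <;> cases s2 <;> cases s3 <;> cases s4 <;> simp only [sg_true, sg_false] at hk <;> omega

end Pool.Agent.N858.P5
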