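import Mathlib

set_option autoImplicit false

/-!
Sums of periodic functions over a period, and the second Bernoulli function.
-/

open Finset

namespace Pool.Agent.N858.P5

section periodic

variable {g : ℤ → ℝ} {N : ℕ}

lemma per_mul (hg : ∀ j, g (j + N) = g j) (j k : ℤ) : g (j + k * N) = g j := by
  induction k using Int.induction_on with
  | zero => simp
  | succ k ih => rw [← ih, ← hg (j + k * N)]; congr 1; ring
  | pred k ih => rw [← ih, ← hg (j + (-k - 1) * N)]; congr 1; ring

lemma per_emod (hg : ∀ j, g (j + N) = g j) (j : ℤ) : g (j % N) = g j := by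
  have h := per_mul hg (j % N) (j / N)
  rw [← h]
  congr 1
  rw [mul_comm]
  exact (Int.emod_add_mul_ediv j N).symm ▸ rfl

/-- The sum over a period. -/
noncomputable def psum (N : ℕ) (g : ℤ → ℝ) : ℝ := ∑ i ∈ range N, g i

lemma psum_congr {h : ℤ → ℝ} (hgh : ∀ j, g j = h j) : psum N g = psum N h :=
  sum_congr rfl fun i _ => hgh i

/-- Reindexing by an injective map of residue classes. -/
lemma psum_map (hN : 0 < N) (hg : ∀ j, g (j + N) = g j) (f : ℤ → ℤ)
    (hf : ∀ i j : ℤ, (N : ℤ) ∣ f i - f j → (N : ℤ) ∣ i - j) :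
    psum N (fun j => g (f j)) = psum N g := by
  have hN' : (0 : ℤ) < N := by exact_mod_cast hN
  unfold psum
  set φ : ℕ → ℕ := fun i => (f i % N).toNat with hφ
  have hcast : ∀ i : ℕ, ((φ i : ℕ) : ℤ) = f i % N := fun i =>
    Int.toNat_of_nonneg (Int.emod_nonneg _ hN'.ne')
  have hmem : ∀ i ∈ range N, φ i ∈ range N := by
    intro i _
    rw [mem_range]
    have := Int.emod_lt_of_pos (f i) hN'
    rw [← hcast i] at this
    exact_mod_cast this
  have hinj : Set.InjOn φ (range N) := by
    intro i hi j hj hij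
    have h1 : f i % N = f j % N := by rw [← hcast, ← hcast, hij]
    have h2 := hf i j (Int.dvd_of_emod_eq_zero (Int.emod_eq_emod_iff_emod_sub_eq_zero.1 h1))
    have hi' := mem_range.1 (mem_coe.1 hi)
    have hj' := mem_range.1 (mem_coe.1 hj)
    obtain ⟨k, hk⟩ := h2
    have h3 : k = 0 := by
      by_contra hk0
      rcases lt_or_gt_of_ne hk0 with h | h
      · have : (N : ℤ) * k ≤ -N := by nlinarith
        omega
      · have : (N : ℤ) ≤ N * k := by nlinarith
        omega
    rw [h3, mul_zero] at hk
    omega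
  have himg : (range N).image φ = range N := by
    apply eq_of_subset_of_card_le
    · intro i hi
      obtain ⟨j, hj, rfl⟩ := mem_image.1 hi
      exact hmem j hj
    · rw [card_image_of_injOn hinj]
  calc ∑ i ∈ range N, g (f i) = ∑ i ∈ range N, g (φ i) := by
        refine sum_congr rfl fun i _ => ?_
        rw [hcast, per_emod hg]
    _ = ∑ i ∈ (range N).image φ, g i := (sum_image (f := fun i : ℕ => g i) hinj).symm
    _ = ∑ i ∈ range N, g i := by rw [himg]

lemma psum_add (hN : 0 < N) (hg : ∀ j, g (j + N) = g j) (m : ℤ) :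
    psum N (fun j => g (j + m)) = psum N g :=
  psum_map hN hg (fun j => j + m) fun i j h => by simpa using h

lemma psum_unit (hN : 0 < N) (hg : ∀ j, g (j + N) = g j) {u : ℤ} (hu : IsCoprime u (N : ℤ)) :
    psum N (fun j => g (j * u)) = psum N g :=
  psum_map hN hg (fun j => j * u) fun i j h => by
    rw [← sub_mul] at h
    exact hu.symm.dvd_of_dvd_mul_right h

/-- A function of a smaller period. -/
lemma psum_mul {M : ℕ} (hg : ∀ j, g (j + M) = g j) (p : ℕ) :
    psum (p * M) g = p * psum M g := by
  induction p with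
  | zero => simp [psum]
  | succ p ih =>
    unfold psum at ih ⊢
    rw [Nat.succ_mul, sum_range_add, ih]
    have : ∑ x ∈ range M, g ((p * M + x : ℕ) : ℤ) = ∑ x ∈ range M, g x := by
      refine sum_congr rfl fun x _ => ?_
      have h := per_mul hg x p
      rw [← h]
      congr 1
      push_cast
      ring
    rw [this]
    push_cast
    ring

/-- The sum over the multiples of `p`. -/
lemma psum_dvd {p : ℕ} (hp : 0 < p) (M : ℕ) (g : ℤ → ℝ) :
    psum (p * M) (fun j => if (p : ℤ) ∣ j then g j else 0) = psum M (fun j => g (p * j)) := by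
  unfold psum
  rw [← sum_filter]
  symm
  refine sum_bij (fun i _ => p * i) ?_ ?_ ?_ ?_
  · intro i hi
    rw [mem_range] at hi
    rw [mem_filter, mem_range]
    refine ⟨(Nat.mul_lt_mul_left hp).2 hi, ?_⟩
    push_cast
    exact dvd_mul_right _ _
  · intro i _ j _ h
    exact Nat.eq_of_mul_eq_mul_left hp h
  · intro j hj
    rw [mem_filter, mem_range] at hj
    obtain ⟨hj1, hj2⟩ := hj
    obtain ⟨i, rfl⟩ := Int.natCast_dvd_natCast.1 hj2
    exact ⟨i, mem_range.2 (lt_of_mul_lt_mul_left hj1 (Nat.zero_le _)), rfl⟩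
  · intro i _
    push_cast
    rfl

end periodic

/-- The second Bernoulli function. -/
noncomputable def bet (t : ℝ) : ℝ := Int.fract t ^ 2 - Int.fract t + 1 / 6

lemma bet_add_int (t : ℝ) (m : ℤ) : bet (t + m) = bet t := by
  unfold bet
  rw [Int.fract_add_intCast]

lemma bet_int (m : ℤ) : bet m = 1 / 6 := by
  unfold bet
  rw [Int.fract_intCast]
  norm_num

lemma bet_neg (t : ℝ) : bet (-t) = bet t := by
  unfold bet
  rcases eq_or_ne (Int.fract t) 0 with h | h
  · rw [h, Int.fract_neg_eq_zero.2 h]
  · rw [Int.fract_neg h]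
    ring

lemma bet_of_mem {t : ℝ} {m : ℤ} (h0 : (m : ℝ) ≤ t) (h1 : t ≤ m + 1) :
    bet t = (t - m) ^ 2 - (t - m) + 1 / 6 := by
  rcases h1.lt_or_eq with h | h
  · have : Int.fract t = t - m := by
      rw [Int.fract]
      congr 2
      exact Int.floor_eq_iff.2 ⟨h0, h⟩
    unfold bet
    rw [this]
  · have : t = ((m + 1 : ℤ) : ℝ) := by push_cast; exact h
    rw [this, bet_int]
    push_cast
    ring

/-- The distribution relation. -/
lemma bet_distrib {p : ℕ} (hp : 0 < p) (t : ℝ) :
    ∑ i ∈ range p, bet (t + i / p) = bet (p * t) / p := by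
  have hp' : (0 : ℝ) < p := by exact_mod_cast hp
  set m : ℤ := ⌊(p : ℝ) * t⌋ with hm
  set r : ℝ := Int.fract ((p : ℝ) * t) / p with hr
  have hr0 : 0 ≤ r := div_nonneg (Int.fract_nonneg _) hp'.le
  have hr1 : r < 1 / p := by
    rw [hr, div_lt_div_iff_of_pos_right hp']
    exact Int.fract_lt_one _
  have ht : t = r + m / p := by
    rw [hr, ← add_div, eq_div_iff hp'.ne', mul_comm]
    exact (Int.fract_add_floor _).symm
  have h1 : ∑ i ∈ range p, bet (t + i / p) = psum p (fun j => (fun k : ℤ => bet (r + k / p)) (j + m)) := by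
    unfold psum
    refine sum_congr rfl fun i _ => ?_
    simp only
    congr 1
    rw [ht]
    push_cast
    ring
  rw [h1, psum_add hp (g := fun k : ℤ => bet (r + k / p)) (by
    intro j
    rw [← bet_add_int (r + j / p) 1]
    congr 1
    push_cast
    field_simp
    ring)]
  have h2 : ∀ i ∈ range p, (fun k : ℤ => bet (r + k / p)) (i : ℤ) =
      (r + i / p) ^ 2 - (r + i / p) + 1 / 6 := by
    intro i hi
    have hi' : (i : ℝ) + 1 ≤ p := by exact_mod_cast mem_range.1 hi
    have h3 : (0 : ℝ) ≤ i := Nat.cast_nonneg i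
    simp only [Int.cast_natCast]
    rw [bet_of_mem (m := 0)]
    · simp
    · push_cast
      positivity
    · push_cast
      have : (i : ℝ) / p + 1 / p ≤ 1 := by
        rw [← add_div, div_le_one hp']
        exact hi'
      linarith
  unfold psum
  rw [sum_congr rfl h2]
  have hb : bet (p * t) = (p * r) ^ 2 - p * r + 1 / 6 := by
    unfold bet
    have : Int.fract ((p : ℝ) * t) = p * r := by
      rw [hr]
      field_simp
    rw [this]
  have hs : ∀ n : ℕ, ∑ i ∈ range n, ((r + (i : ℝ) / p) ^ 2 - (r + i / p) + 1 / 6) =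
      n * r ^ 2 + 2 * r * (n * (n - 1) / 2) / p + (n * (n - 1) * (2 * n - 1) / 6) / p ^ 2 - n * r -
        (n * (n - 1) / 2) / p + n / 6 := by
    intro n
    induction n with
    | zero => simp
    | succ n ih =>
      rw [sum_range_succ, ih]
      push_cast
      field_simp
      ring
  rw [hs p, hb]
  field_simp
  ring

end Pool.Agent.N858.P5
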