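import Pool.Agent.N858.P5.Quad
import Pool.Agent.N858.P5.Arith

set_option autoImplicit false

/-!
Rank one families of differences of exponents at five points are resonant.
-/

open Finset

namespace Pool.Agent.N858.P5

lemma fam_equiv {a : Fin 5 → ℤ} (σ : Equiv.Perm (Fin 5)) (hG : ∀ t : ℝ, Good fun i => t * (a i : ℝ))
    (t : ℝ) : Good fun i => t * ((a (σ i) : ℤ) : ℝ) :=
  good_equiv σ (D := fun i => t * (a i : ℝ)) (hG t)

/-- Sorted families. -/
lemma five_sorted {a : Fin 5 → ℤ} (h4 : 0 ≤ a 4) (h43 : a 4 ≤ a 3) (h32 : a 3 ≤ a 2)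
    (h21 : a 2 ≤ a 1) (h10 : a 1 ≤ a 0) (hG : ∀ t : ℝ, Good fun i => t * a i) :
    ∃ e : S4, sg e.1 * a 1 + sg e.2.1 * a 2 + sg e.2.2.1 * a 3 + sg e.2.2.2 * a 4 + a 0 = 0 := by
  rcases (show 0 ≤ a 0 by omega).eq_or_lt with h0 | h0
  · refine ⟨(true, true, true, true), ?_⟩
    simp only [sg_true]
    omega
  · refine arith h4 h43 h32 h21 h10 h0 (quad h0 hG) fun h1 => ?_
    have := quad (a := fun i => a (Equiv.swap 0 1 i)) (by simpa using h1)
      (fun t => fam_equiv (Equiv.swap (0 : Fin 5) 1) hG t)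
    have e2 : (Equiv.swap (0 : Fin 5) 1) 2 = 2 := by decide
    have e3 : (Equiv.swap (0 : Fin 5) 1) 3 = 3 := by decide
    have e4 : (Equiv.swap (0 : Fin 5) 1) 4 = 4 := by decide
    simpa only [Equiv.swap_apply_left, Equiv.swap_apply_right, e2, e3, e4] using this

/-- Nonnegative families. -/
lemma five_nonneg {a : Fin 5 → ℤ} (h0 : ∀ i, 0 ≤ a i) (hG : ∀ t : ℝ, Good fun i => t * a i) :
    ∃ s : Fin 5 → Bool, ∑ i, sg (s i) * a i = 0 := by
  -- sort
  set σ : Equiv.Perm (Fin 5) := Tuple.sort (fun i => -a i) with hσ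
  have hmono : Monotone ((fun i => -a i) ∘ σ) := Tuple.monotone_sort _
  have hle : ∀ i j : Fin 5, i ≤ j → a (σ j) ≤ a (σ i) := by
    intro i j hij
    have := hmono hij
    simp only [Function.comp_apply] at this
    linarith
  obtain ⟨e, he⟩ := five_sorted (a := fun i => a (σ i)) (h0 _) (hle 3 4 (by decide))
    (hle 2 3 (by decide)) (hle 1 2 (by decide)) (hle 0 1 (by decide))
    (fun t => fam_equiv σ hG t)
  refine ⟨fun i => ![true, e.1, e.2.1, e.2.2.1, e.2.2.2] (σ.symm i), ?_⟩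
  rw [← Equiv.sum_comp σ]
  simp only [Equiv.symm_apply_apply]
  rw [Fin.sum_univ_five]
  simp only [Matrix.cons_val]
  rw [sg_true]
  linarith

/-- All families. -/
theorem five {a : Fin 5 → ℤ} (hG : ∀ t : ℝ, Good fun i => t * a i) :
    ∃ s : Fin 5 → Bool, ∑ i, sg (s i) * a i = 0 := by
  have hG' : ∀ t : ℝ, Good fun i => t * ((fun i => |a i|) i : ℤ) := by
    intro t β hβ
    have h := hG t β hβ
    have e : ∀ i, ⌊t * ((|a i| : ℤ) : ℝ) / 2 - β i⌋ + ⌊-(t * ((|a i| : ℤ) : ℝ) / 2) - β i⌋ =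
        ⌊t * (a i : ℝ) / 2 - β i⌋ + ⌊-(t * (a i : ℝ) / 2) - β i⌋ := by
      intro i
      rcases abs_cases (a i) with ⟨h1, -⟩ | ⟨h1, -⟩
      · rw [h1]
      · rw [h1]
        push_cast
        have e1 : t * -(a i : ℝ) / 2 = -(t * a i / 2) := by ring
        rw [e1, neg_neg, add_comm]
    rw [sum_congr rfl fun i _ => e i]
    exact h
  obtain ⟨s, hs⟩ := five_nonneg (a := fun i => |a i|) (fun i => abs_nonneg _) hG'
  refine ⟨fun i => if 0 ≤ a i then s i else !(s i), ?_⟩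
  refine Eq.trans (sum_congr rfl fun i _ => ?_) hs
  by_cases h : 0 ≤ a i
  · simp only [if_pos h, abs_of_nonneg h]
  · simp only [if_neg h, abs_of_neg (not_le.1 h)]
    cases s i <;> simp

end Pool.Agent.N858.P5
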