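import Pool.Agent.N858.P5.Four

set_option autoImplicit false

/-!
Four points: the inequality in general.
-/

open Finset

namespace Pool.Agent.N858.P5

section odd

variable {X : Type*} [Fintype X] [DecidableEq X] {D : X → ℝ}

/-- The inequalities for odd sets. -/
lemma good_odd (hG : Good D) (h0 : ∀ x, 0 ≤ D x) (h1 : ∀ x, D x ≤ 1) (S : Finset X) (m : ℕ)
    (hS : S.card = 2 * m + 1) : 2 * ∑ x ∈ S, D x ≤ ∑ x, D x + 2 * m := by
  by_contra hlt
  push Not at hlt
  obtain ⟨y, hy⟩ : S.Nonempty := card_pos.1 (by omega)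
  have h := hG (fun x => (if x ∈ S then D x / 2 else -(D x / 2)) - if x = y then (m : ℝ) else 0) (by
    rw [sum_sub_distrib, sum_ite_eq', if_pos (mem_univ _)]
    have e1 : ∑ x, (if x ∈ S then D x / 2 else -(D x / 2)) = ∑ x ∈ S, D x - (∑ x, D x) / 2 := by
      have e2 : ∀ x, (if x ∈ S then D x / 2 else -(D x / 2)) =
          (if x ∈ S then D x else 0) - D x / 2 := by
        intro x
        split_ifs <;> ring
      rw [sum_congr rfl fun x _ => e2 x, sum_sub_distrib, sum_ite_mem, univ_inter, sum_div]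
    rw [e1]
    linarith)
  have h2 : ∑ x, ((if x ∈ S then (-1 : ℤ) else 0) + if x = y then 2 * (m : ℤ) else 0) ≤
      ∑ x, (⌊D x / 2 - ((if x ∈ S then D x / 2 else -(D x / 2)) - if x = y then (m : ℝ) else 0)⌋ +
        ⌊-(D x / 2) - ((if x ∈ S then D x / 2 else -(D x / 2)) - if x = y then (m : ℝ) else 0)⌋) := by
    refine sum_le_sum fun x _ => ?_
    have k0 := h0 x
    have k1 := h1 x
    have e : ∀ r : ℝ, r - ((if x ∈ S then D x / 2 else -(D x / 2)) - if x = y then (m : ℝ) else 0) =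
        r - (if x ∈ S then D x / 2 else -(D x / 2)) + ((if x = y then (m : ℤ) else 0 : ℤ) : ℝ) := by
      intro r
      split_ifs <;> push_cast <;> ring
    rw [e, e, Int.floor_add_intCast, Int.floor_add_intCast]
    have e2 : (if x ∈ S then (-1 : ℤ) else 0) ≤
        ⌊D x / 2 - (if x ∈ S then D x / 2 else -(D x / 2))⌋ +
          ⌊-(D x / 2) - (if x ∈ S then D x / 2 else -(D x / 2))⌋ := by
      split_ifs
      · have f1 : (0 : ℤ) ≤ ⌊D x / 2 - D x / 2⌋ := Int.le_floor.2 (by push_cast; linarith)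
        have f2 : (-1 : ℤ) ≤ ⌊-(D x / 2) - D x / 2⌋ := Int.le_floor.2 (by push_cast; linarith)
        linarith
      · have f1 : (0 : ℤ) ≤ ⌊D x / 2 - -(D x / 2)⌋ := Int.le_floor.2 (by push_cast; linarith)
        have f2 : (0 : ℤ) ≤ ⌊-(D x / 2) - -(D x / 2)⌋ := Int.le_floor.2 (by push_cast; linarith)
        linarith
    split_ifs at e2 ⊢ <;> linarith
  have h3 : ∑ x, ((if x ∈ S then (-1 : ℤ) else 0) + if x = y then 2 * (m : ℤ) else 0) = -1 := by
    rw [sum_add_distrib, sum_ite_mem, univ_inter, sum_ite_eq', if_pos (mem_univ _), sum_const,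
      hS, nsmul_eq_mul]
    push_cast
    ring
  rw [h3] at h2
  linarith

end odd

lemma fold (r : ℝ) : ∃ (s : Bool) (m : ℤ) (r' : ℝ), 0 ≤ r' ∧ r' ≤ 1 ∧ r = sg s * r' + 2 * m := by
  have h := abs_sub_round (r / 2)
  rw [abs_le] at h
  rcases le_total 0 (r - 2 * round (r / 2)) with h1 | h1
  · refine ⟨true, round (r / 2), r - 2 * round (r / 2), h1, by linarith [h.2], ?_⟩
    simp
  · refine ⟨false, round (r / 2), -(r - 2 * round (r / 2)), by linarith, by linarith [h.1], ?_⟩
    simp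

/-- Multiplication of quadruples of signs. -/
def mul4 (s : S4) : Equiv.Perm S4 where
  toFun e := (xor (xor e.1 s.1) true, xor (xor e.2.1 s.2.1) true, xor (xor e.2.2.1 s.2.2.1) true,
    xor (xor e.2.2.2 s.2.2.2) true)
  invFun e := (xor (xor e.1 s.1) true, xor (xor e.2.1 s.2.1) true, xor (xor e.2.2.1 s.2.2.1) true,
    xor (xor e.2.2.2 s.2.2.2) true)
  left_inv e := by
    obtain ⟨a, b, c, d⟩ := e
    obtain ⟨a', b', c', d'⟩ := s
    cases a <;> cases b <;> cases c <;> cases d <;> cases a' <;> cases b' <;> cases c' <;>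
      cases d' <;> rfl
  right_inv e := by
    obtain ⟨a, b, c, d⟩ := e
    obtain ⟨a', b', c', d'⟩ := s
    cases a <;> cases b <;> cases c <;> cases d <;> cases a' <;> cases b' <;> cases c' <;>
      cases d' <;> rfl

lemma sg_mul (a b : Bool) : sg (xor (xor a b) true) = sg a * sg b := by
  cases a <;> cases b <;> rfl

/-- The inequality. -/
theorem Ff_nonneg {D : Fin 4 → ℝ} (hG : Good D) :
    0 ≤ Ff D ∧ (Ff D = 0 → (∃ i, ∃ z : ℤ, D i = z) ∨ ∃ e, ∃ z : ℤ, Lf e D = z) := by
  choose s m D' hD0 hD1 hD using fun i => fold (D i)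
  have hG' : Good D' := by
    intro β hβ
    have h := hG β hβ
    have e : ∀ i, ⌊D i / 2 - β i⌋ + ⌊-(D i / 2) - β i⌋ =
        ⌊D' i / 2 - β i⌋ + ⌊-(D' i / 2) - β i⌋ := by
      intro i
      have e1 : D i / 2 - β i = sg (s i) * D' i / 2 - β i + m i := by rw [hD i]; ring
      have e2 : -(D i / 2) - β i = -(sg (s i) * D' i / 2) - β i - m i := by rw [hD i]; ring
      rw [e1, e2, Int.floor_add_intCast, Int.floor_sub_intCast]
      cases s i
      · simp only [sg_false, Int.cast_neg, Int.cast_one, neg_mul, one_mul]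
        have e3 : -D' i / 2 = -(D' i / 2) := by ring
        rw [e3, neg_neg]
        ring
      · simp only [sg_true, Int.cast_one, one_mul]
        ring
    rw [sum_congr rfl fun i _ => e i] at h
    exact h
  have hL : ∀ e, ∃ k : ℤ, Lf e D = Lf (mul4 (s 0, s 1, s 2, s 3) e) D' + k := by
    intro e
    refine ⟨sg e.1 * m 0 + sg e.2.1 * m 1 + sg e.2.2.1 * m 2 + sg e.2.2.2 * m 3, ?_⟩
    unfold Lf
    simp only [mul4, Equiv.coe_fn_mk, sg_mul]
    rw [hD 0, hD 1, hD 2, hD 3]
    push_cast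
    ring
  have hF : Ff D = Ff D' := by
    unfold Ff
    congr 1
    · rw [← Equiv.sum_comp (mul4 (s 0, s 1, s 2, s 3)) (fun e => bet (Lf e D'))]
      refine sum_congr rfl fun e _ => ?_
      obtain ⟨k, hk⟩ := hL e
      rw [hk, bet_add_int]
    · congr 1
      refine sum_congr rfl fun i _ => ?_
      have e1 : D i = sg (s i) * D' i + ((2 * m i : ℤ) : ℝ) := by rw [hD i]; push_cast; ring
      rw [e1, bet_add_int]
      cases s i
      · simp [bet_neg]
      · simp
  have s0 := good_odd hG' hD0 hD1 {0} 0 (by simp)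
  have s1 := good_odd hG' hD0 hD1 {1} 0 (by simp)
  have s2 := good_odd hG' hD0 hD1 {2} 0 (by simp)
  have s3 := good_odd hG' hD0 hD1 {3} 0 (by simp)
  have t0 := good_odd hG' hD0 hD1 {1, 2, 3} 1 (by decide)
  have t1 := good_odd hG' hD0 hD1 {0, 2, 3} 1 (by decide)
  have t2 := good_odd hG' hD0 hD1 {0, 1, 3} 1 (by decide)
  have t3 := good_odd hG' hD0 hD1 {0, 1, 2} 1 (by decide)
  have u0 : ∑ x ∈ ({1, 2, 3} : Finset (Fin 4)), D' x = D' 1 + D' 2 + D' 3 := by
    rw [sum_insert (by decide), sum_insert (by decide), sum_singleton]; ring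
  have u1 : ∑ x ∈ ({0, 2, 3} : Finset (Fin 4)), D' x = D' 0 + D' 2 + D' 3 := by
    rw [sum_insert (by decide), sum_insert (by decide), sum_singleton]; ring
  have u2 : ∑ x ∈ ({0, 1, 3} : Finset (Fin 4)), D' x = D' 0 + D' 1 + D' 3 := by
    rw [sum_insert (by decide), sum_insert (by decide), sum_singleton]; ring
  have u3 : ∑ x ∈ ({0, 1, 2} : Finset (Fin 4)), D' x = D' 0 + D' 1 + D' 2 := by
    rw [sum_insert (by decide), sum_insert (by decide), sum_singleton]; ring
  rw [u0] at t0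
  rw [u1] at t1
  rw [u2] at t2
  rw [u3] at t3
  rw [sum_singleton] at s0 s1 s2 s3
  rw [Fin.sum_univ_four] at s0 s1 s2 s3 t0 t1 t2 t3
  push_cast at s0 s1 s2 s3 t0 t1 t2 t3
  obtain ⟨g1, g2⟩ := Ff_nonneg_aux hD0 hD1 (by linarith) (by linarith) (by linarith) (by linarith)
    (by linarith) (by linarith) (by linarith) (by linarith)
  rw [hF]
  refine ⟨g1, fun hz => ?_⟩
  by_contra hno
  push Not at hno
  obtain ⟨hn1, hn2⟩ := hno
  have hn1' : ∀ i (z : ℤ), D' i ≠ z := by
    intro i z h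
    apply hn1 i (sg (s i) * z + 2 * m i)
    rw [hD i, h]
    push_cast
    ring
  have hn2' : ∀ e (z : ℤ), Lf e D' ≠ z := by
    intro e z h
    obtain ⟨k, hk⟩ := hL ((mul4 (s 0, s 1, s 2, s 3)).symm e)
    rw [Equiv.apply_symm_apply, h] at hk
    apply hn2 ((mul4 (s 0, s 1, s 2, s 3)).symm e) (z + k)
    rw [hk]
    push_cast
    ring
  have p0 : ∀ i, 0 < D' i := fun i => lt_of_le_of_ne (hD0 i) fun h => hn1' i 0 (by rw [← h]; simp)
  have p1 : ∀ i, D' i < 1 := fun i => lt_of_le_of_ne (hD1 i) fun h => hn1' i 1 (by rw [h]; simp)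
  have key : ∀ (e : S4) (z : ℤ) (r : ℝ), Lf e D' = r → r ≠ z := fun e z r h1 h2 =>
    hn2' e z (h1.trans h2)
  have v0 := key (false, true, true, true)
  have v1 := key (true, false, true, true)
  have v2 := key (true, true, false, true)
  have v3 := key (true, true, true, false)
  simp only [Lf, sg_true, sg_false, Int.cast_one, Int.cast_neg, one_mul, neg_mul] at v0 v1 v2 v3
  have w0 := v0 0 _ rfl
  have w0' := v0 1 _ rfl
  have w1 := v1 0 _ rfl
  have w1' := v1 1 _ rfl
  have w2 := v2 0 _ rfl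
  have w2' := v2 1 _ rfl
  have w3 := v3 0 _ rfl
  have w3' := v3 1 _ rfl
  push_cast at w0 w0' w1 w1' w2 w2' w3 w3'
  have := g2 p0 p1 (lt_of_le_of_ne (by linarith) fun h => w0 (by linarith))
    (lt_of_le_of_ne (by linarith) fun h => w1 (by linarith))
    (lt_of_le_of_ne (by linarith) fun h => w2 (by linarith))
    (lt_of_le_of_ne (by linarith) fun h => w3 (by linarith))
    (lt_of_le_of_ne (by linarith) fun h => w0' (by linarith))
    (lt_of_le_of_ne (by linarith) fun h => w1' (by linarith))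
    (lt_of_le_of_ne (by linarith) fun h => w2' (by linarith))
    (lt_of_le_of_ne (by linarith) fun h => w3' (by linarith))
  linarith

end Pool.Agent.N858.P5
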