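import Pool.Agent.N858.P5.Beta

set_option autoImplicit false

/-!
Four points: an inequality between values of the second Bernoulli function.
-/

open Finset

namespace Pool.Agent.N858.P5

/-- The inequalities for line subbundles of a bundle of rank two with the weights `± D x / 2`. -/
def Good {X : Type*} [Fintype X] (D : X → ℝ) : Prop :=
  ∀ β : X → ℝ, 0 < ∑ x, β x → ∑ x, (⌊D x / 2 - β x⌋ + ⌊-(D x / 2) - β x⌋) + 2 ≤ 0

/-- Signs. -/
def sg (b : Bool) : ℤ := if b then 1 else -1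

@[simp] lemma sg_true : sg true = 1 := rfl
@[simp] lemma sg_false : sg false = -1 := rfl

lemma sg_xor (a b : Bool) : sg (xor a b) = -(sg a * sg b) := by
  cases a <;> cases b <;> rfl

/-- Quadruples of signs. -/
abbrev S4 : Type := Bool × Bool × Bool × Bool

/-- The sums of the exponents. -/
noncomputable def Lf (e : S4) (D : Fin 4 → ℝ) : ℝ :=
  (sg e.1 * D 0 + sg e.2.1 * D 1 + sg e.2.2.1 * D 2 + sg e.2.2.2 * D 3) / 2

/-- The function. -/
noncomputable def Ff (D : Fin 4 → ℝ) : ℝ := ∑ e : S4, bet (Lf e D) - 4 * ∑ i, bet (D i)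

lemma bet_abs {t : ℝ} (h : |t| ≤ 1) : bet t = t ^ 2 - |t| + 1 / 6 := by
  rcases abs_cases t with ⟨h1, h2⟩ | ⟨h1, h2⟩
  · rw [h1] at h ⊢
    rw [bet_of_mem (m := 0) (by push_cast; linarith) (by push_cast; linarith)]
    push_cast
    ring
  · rw [h1] at h ⊢
    rw [bet_of_mem (m := -1) (by push_cast; linarith) (by push_cast; linarith)]
    push_cast
    ring

lemma bet_two {t : ℝ} (h1 : 1 ≤ t) (h2 : t ≤ 2) : bet t = t ^ 2 - 3 * t + 2 + 1 / 6 := by
  rw [bet_of_mem (m := 1) (by push_cast; linarith) (by push_cast; linarith)]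
  push_cast
  ring

lemma Ff_eight (D : Fin 4 → ℝ) : Ff D =
    2 * (bet ((D 0 + D 1 + D 2 + D 3) / 2) + bet ((D 0 + D 1 + D 2 - D 3) / 2) +
      bet ((D 0 + D 1 - D 2 + D 3) / 2) + bet ((D 0 - D 1 + D 2 + D 3) / 2) +
      bet ((-D 0 + D 1 + D 2 + D 3) / 2) + bet ((D 0 + D 1 - D 2 - D 3) / 2) +
      bet ((D 0 - D 1 + D 2 - D 3) / 2) + bet ((D 0 - D 1 - D 2 + D 3) / 2)) -
    4 * (bet (D 0) + bet (D 1) + bet (D 2) + bet (D 3)) := by
  have e1 : ∀ a b c d : ℝ, bet ((-a - b - c - d) / 2) = bet ((a + b + c + d) / 2) := fun a b c d => by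
    rw [← bet_neg]; congr 1; ring
  unfold Ff Lf
  rw [Fin.sum_univ_four]
  simp only [Fintype.sum_prod_type, Fintype.sum_bool, sg_true, sg_false, Int.cast_one,
    Int.cast_neg, one_mul, neg_mul]
  have f1 := bet_neg ((D 0 + D 1 + D 2 + D 3) / 2)
  have f2 := bet_neg ((D 0 + D 1 + D 2 - D 3) / 2)
  have f3 := bet_neg ((D 0 + D 1 - D 2 + D 3) / 2)
  have f4 := bet_neg ((D 0 - D 1 + D 2 + D 3) / 2)
  have f5 := bet_neg ((-D 0 + D 1 + D 2 + D 3) / 2)
  have f6 := bet_neg ((D 0 + D 1 - D 2 - D 3) / 2)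
  have f7 := bet_neg ((D 0 - D 1 + D 2 - D 3) / 2)
  have f8 := bet_neg ((D 0 - D 1 - D 2 + D 3) / 2)
  have g1 : -((D 0 + D 1 + D 2 + D 3) / 2) = (-D 0 + -D 1 + -D 2 + -D 3) / 2 := by ring
  have g2 : -((D 0 + D 1 + D 2 - D 3) / 2) = (-D 0 + -D 1 + -D 2 + D 3) / 2 := by ring
  have g3 : -((D 0 + D 1 - D 2 + D 3) / 2) = (-D 0 + -D 1 + D 2 + -D 3) / 2 := by ring
  have g4 : -((D 0 - D 1 + D 2 + D 3) / 2) = (-D 0 + D 1 + -D 2 + -D 3) / 2 := by ring
  have g5 : -((-D 0 + D 1 + D 2 + D 3) / 2) = (D 0 + -D 1 + -D 2 + -D 3) / 2 := by ring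
  have g6 : -((D 0 + D 1 - D 2 - D 3) / 2) = (-D 0 + -D 1 + D 2 + D 3) / 2 := by ring
  have g7 : -((D 0 - D 1 + D 2 - D 3) / 2) = (-D 0 + D 1 + -D 2 + D 3) / 2 := by ring
  have g8 : -((D 0 - D 1 - D 2 + D 3) / 2) = (-D 0 + D 1 + D 2 + -D 3) / 2 := by ring
  rw [g1] at f1
  rw [g2] at f2
  rw [g3] at f3
  rw [g4] at f4
  rw [g5] at f5
  rw [g6] at f6
  rw [g7] at f7
  rw [g8] at f8
  simp only [← sub_eq_add_neg] at f1 f2 f3 f4 f5 f6 f7 f8 ⊢
  linarith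

/-- The inequality on the fundamental domain. -/
lemma Ff_nonneg_aux {D : Fin 4 → ℝ} (h0 : ∀ i, 0 ≤ D i) (h1 : ∀ i, D i ≤ 1)
    (a1 : D 0 ≤ D 1 + D 2 + D 3) (a2 : D 1 ≤ D 0 + D 2 + D 3) (a3 : D 2 ≤ D 0 + D 1 + D 3)
    (a4 : D 3 ≤ D 0 + D 1 + D 2) (b1 : D 1 + D 2 + D 3 ≤ D 0 + 2) (b2 : D 0 + D 2 + D 3 ≤ D 1 + 2)
    (b3 : D 0 + D 1 + D 3 ≤ D 2 + 2) (b4 : D 0 + D 1 + D 2 ≤ D 3 + 2) :
    0 ≤ Ff D ∧ ((∀ i, 0 < D i) → (∀ i, D i < 1) →
      D 0 < D 1 + D 2 + D 3 → D 1 < D 0 + D 2 + D 3 → D 2 < D 0 + D 1 + D 3 →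
      D 3 < D 0 + D 1 + D 2 → D 1 + D 2 + D 3 < D 0 + 2 → D 0 + D 2 + D 3 < D 1 + 2 →
      D 0 + D 1 + D 3 < D 2 + 2 → D 0 + D 1 + D 2 < D 3 + 2 → 0 < Ff D) := by
  rw [Ff_eight]
  have k0 := h0 0
  have k1 := h0 1
  have k2 := h0 2
  have k3 := h0 3
  have l0 := h1 0
  have l1 := h1 1
  have l2 := h1 2
  have l3 := h1 3
  generalize hA : D 0 = a at *
  generalize hB : D 1 = b at *
  generalize hC : D 2 = c at *
  generalize hD : D 3 = d at *
  rw [bet_abs (t := a) (by rw [abs_le]; constructor <;> linarith),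
    bet_abs (t := b) (by rw [abs_le]; constructor <;> linarith),
    bet_abs (t := c) (by rw [abs_le]; constructor <;> linarith),
    bet_abs (t := d) (by rw [abs_le]; constructor <;> linarith),
    bet_abs (t := (a + b + c - d) / 2) (by rw [abs_le]; constructor <;> linarith),
    bet_abs (t := (a + b - c + d) / 2) (by rw [abs_le]; constructor <;> linarith),
    bet_abs (t := (a - b + c + d) / 2) (by rw [abs_le]; constructor <;> linarith),
    bet_abs (t := (-a + b + c + d) / 2) (by rw [abs_le]; constructor <;> linarith),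
    bet_abs (t := (a + b - c - d) / 2) (by rw [abs_le]; constructor <;> linarith),
    bet_abs (t := (a - b + c - d) / 2) (by rw [abs_le]; constructor <;> linarith),
    bet_abs (t := (a - b - c + d) / 2) (by rw [abs_le]; constructor <;> linarith)]
  rw [abs_of_nonneg (a := a) k0, abs_of_nonneg (a := b) k1, abs_of_nonneg (a := c) k2,
    abs_of_nonneg (a := d) k3, abs_of_nonneg (a := (a + b + c - d) / 2) (by linarith),
    abs_of_nonneg (a := (a + b - c + d) / 2) (by linarith),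
    abs_of_nonneg (a := (a - b + c + d) / 2) (by linarith),
    abs_of_nonneg (a := (-a + b + c + d) / 2) (by linarith)]
  rcases le_total ((a + b + c + d) / 2) 1 with hs | hs
  · rw [bet_abs (t := (a + b + c + d) / 2) (by rw [abs_le]; constructor <;> linarith),
      abs_of_nonneg (a := (a + b + c + d) / 2) (by linarith)]
    rcases abs_cases ((a + b - c - d) / 2) with ⟨u1, u2⟩ | ⟨u1, u2⟩ <;>
    rcases abs_cases ((a - b + c - d) / 2) with ⟨v1, v2⟩ | ⟨v1, v2⟩ <;>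
    rcases abs_cases ((a - b - c + d) / 2) with ⟨w1, w2⟩ | ⟨w1, w2⟩ <;>
    rw [u1, v1, w1] <;>
    refine ⟨by linarith, fun p0 p1 c1 c2 c3 c4 d1 d2 d3 d4 => ?_⟩ <;>
    (have m0 := p0 0; have m1 := p0 1; have m2 := p0 2; have m3 := p0 3
     have n0 := p1 0; have n1 := p1 1; have n2 := p1 2; have n3 := p1 3
     rw [hA] at m0 n0; rw [hB] at m1 n1; rw [hC] at m2 n2; rw [hD] at m3 n3
     linarith)
  · rw [bet_two (t := (a + b + c + d) / 2) hs (by linarith)]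
    rcases abs_cases ((a + b - c - d) / 2) with ⟨u1, u2⟩ | ⟨u1, u2⟩ <;>
    rcases abs_cases ((a - b + c - d) / 2) with ⟨v1, v2⟩ | ⟨v1, v2⟩ <;>
    rcases abs_cases ((a - b - c + d) / 2) with ⟨w1, w2⟩ | ⟨w1, w2⟩ <;>
    rw [u1, v1, w1] <;>
    refine ⟨by linarith, fun p0 p1 c1 c2 c3 c4 d1 d2 d3 d4 => ?_⟩ <;>
    (have m0 := p0 0; have m1 := p0 1; have m2 := p0 2; have m3 := p0 3
     have n0 := p1 0; have n1 := p1 1; have n2 := p1 2; have n3 := p1 3
     rw [hA] at m0 n0; rw [hB] at m1 n1; rw [hC] at m2 n2; rw [hD] at m3 n3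
     linarith)

end Pool.Agent.N858.P5
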