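import Pool.Agent.N858.P5.Five
import Pool.Agent.N858.PC.Semi

set_option autoImplicit false

/-!
Rank one families of differences of exponents, at most five of which do not vanish.
-/

open Finset

namespace Pool.Agent.N858.P5

open Pool.Agent.N858.PC (LineSS)

/-- Additional scalar points. -/
lemma good_dummy {X Y : Type*} [Fintype X] [Fintype Y] [Nonempty X] [DecidableEq X] {D : X → ℝ}
    (hG : Good D) : Good (Sum.elim D (fun _ : Y => 0)) := by
  intro β hβ
  obtain ⟨x₀⟩ := ‹Nonempty X›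
  rw [Fintype.sum_sum_type] at hβ ⊢
  simp only [Sum.elim_inl, Sum.elim_inr, zero_div, neg_zero, zero_sub]
  set M : ℤ := ∑ y : Y, ⌊-β (Sum.inr y)⌋ with hM
  have hMr : (M : ℝ) ≤ -∑ y : Y, β (Sum.inr y) := by
    rw [hM, ← sum_neg_distrib]
    push_cast
    exact sum_le_sum fun y _ => Int.floor_le _
  have h := hG (fun x => β (Sum.inl x) - if x = x₀ then (M : ℝ) else 0) (by
    rw [sum_sub_distrib, sum_ite_eq', if_pos (mem_univ _)]
    linarith)
  have e : ∀ x, ⌊D x / 2 - (β (Sum.inl x) - if x = x₀ then (M : ℝ) else 0)⌋ +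
      ⌊-(D x / 2) - (β (Sum.inl x) - if x = x₀ then (M : ℝ) else 0)⌋ =
      (⌊D x / 2 - β (Sum.inl x)⌋ + ⌊-(D x / 2) - β (Sum.inl x)⌋) + if x = x₀ then 2 * M else 0 := by
    intro x
    have e1 : ∀ r : ℝ, r - (β (Sum.inl x) - if x = x₀ then (M : ℝ) else 0) =
        r - β (Sum.inl x) + ((if x = x₀ then M else 0 : ℤ) : ℝ) := by
      intro r
      split_ifs <;> push_cast <;> ring
    rw [e1, e1, Int.floor_add_intCast, Int.floor_add_intCast]
    split_ifs <;> ring
  rw [sum_congr rfl fun x _ => e x, sum_add_distrib, sum_ite_eq', if_pos (mem_univ _)] at h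
  have e2 : ∑ y : Y, (⌊-β (Sum.inr y)⌋ + ⌊-β (Sum.inr y)⌋) = 2 * M := by
    rw [sum_add_distrib, ← hM]
    ring
  rw [e2]
  linarith

/-- Omission of scalar points. -/
lemma good_sub {X : Type*} [Fintype X] [DecidableEq X] {D : X → ℝ} (t : Finset X)
    (hD : ∀ x, x ∉ t → D x = 0) (hG : Good D) : Good fun x : t => D x := by
  intro β hβ
  set β' : X → ℝ := fun x => if h : x ∈ t then β ⟨x, h⟩ else 0 with hβ'
  have h1 : ∑ x, β' x = ∑ x : t, β x := by
    rw [← sum_subset (subset_univ t)]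
    · rw [← sum_coe_sort t β']
      refine sum_congr rfl fun x _ => ?_
      simp only [hβ']
      rw [dif_pos x.2]
    · intro x _ hx
      simp only [hβ']
      rw [dif_neg hx]
  have h := hG β' (by rw [h1]; exact hβ)
  have h2 : ∑ x, (⌊D x / 2 - β' x⌋ + ⌊-(D x / 2) - β' x⌋) =
      ∑ x : t, (⌊D x / 2 - β x⌋ + ⌊-(D x / 2) - β x⌋) := by
    rw [← sum_subset (subset_univ t)]
    · rw [← sum_coe_sort t (fun x => ⌊D x / 2 - β' x⌋ + ⌊-(D x / 2) - β' x⌋)]
      refine sum_congr rfl fun x _ => ?_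
      simp only [hβ']
      rw [dif_pos x.2]
    · intro x _ hx
      simp only [hβ']
      rw [dif_neg hx, hD x hx]
      simp
  rw [h2] at h
  exact h

/-- Rank one families of differences of exponents, at most five of which do not vanish, are
resonant. -/
theorem five_gen {X : Type*} [Fintype X] [DecidableEq X] [Nonempty X] (A : Finset X)
    (hA : A.card ≤ 5) {a : X → ℤ} (h0 : ∀ x, x ∉ A → a x = 0)
    (hG : ∀ t : ℝ, Good fun x => t * (a x : ℝ)) : ∃ s : X → Bool, ∑ x, sg (s x) * a x = 0 := by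
  set a2 : X ⊕ Fin 5 → ℤ := Sum.elim a fun _ => 0 with ha2
  have hG2 : ∀ t : ℝ, Good fun x => t * (a2 x : ℝ) := by
    intro t
    have h := good_dummy (Y := Fin 5) (hG t)
    have e : (Sum.elim (fun x => t * (a x : ℝ)) fun _ => (0 : ℝ)) =
        fun x : X ⊕ Fin 5 => t * (a2 x : ℝ) := by
      funext x
      rcases x with x | x
      · rfl
      · simp [ha2]
    rw [e] at h
    exact h
  have hcard : 5 ≤ Fintype.card (X ⊕ Fin 5) := by
    rw [Fintype.card_sum, Fintype.card_fin]; omega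
  obtain ⟨T, hT1, hT2⟩ := Finset.exists_superset_card_eq
    (s := A.map (⟨Sum.inl, Sum.inl_injective⟩ : X ↪ X ⊕ Fin 5))
    (n := 5) (by rw [card_map]; exact hA) hcard
  have h02 : ∀ x, x ∉ T → a2 x = 0 := by
    intro x hx
    rcases x with x | x
    · simp only [ha2, Sum.elim_inl]
      apply h0
      intro hxA
      apply hx
      apply hT1
      rw [mem_map]
      exact ⟨x, hxA, rfl⟩
    · rfl
  set φ : Fin 5 ≃ T := (T.equivFinOfCardEq hT2).symm with hφ
  have hG3 : ∀ t : ℝ, Good fun i : Fin 5 => t * ((a2 (φ i : X ⊕ Fin 5) : ℤ) : ℝ) := by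
    intro t
    have h := good_sub T (D := fun x => t * (a2 x : ℝ)) (fun x hx => by
      simp only [h02 x hx, Int.cast_zero, mul_zero]) (hG2 t)
    exact good_equiv φ (D := fun x : T => t * (a2 x : ℝ)) h
  obtain ⟨s, hs⟩ := five (a := fun i => a2 (φ i : X ⊕ Fin 5)) hG3
  refine ⟨fun x => if h : Sum.inl x ∈ T then s (φ.symm ⟨Sum.inl x, h⟩) else true, ?_⟩
  set S : X ⊕ Fin 5 → Bool := fun z => if h : z ∈ T then s (φ.symm ⟨z, h⟩) else true with hS
  have e1 : ∑ z, sg (S z) * a2 z = ∑ x, sg (S (Sum.inl x)) * a x := by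
    rw [Fintype.sum_sum_type]
    simp [ha2]
  have e2 : ∑ z, sg (S z) * a2 z = ∑ i, sg (s i) * a2 (φ i) := by
    rw [← sum_subset (subset_univ T)]
    · rw [← sum_coe_sort T (fun z => sg (S z) * a2 z), ← Equiv.sum_comp φ]
      refine sum_congr rfl fun i _ => ?_
      simp only [hS]
      rw [dif_pos (φ i).2]
      simp
    · intro z _ hz
      rw [h02 z hz, mul_zero]
  rw [← hs, ← e2, e1]

/-- The differences of the weights satisfy the inequalities. -/
lemma good_of_line {X : Type*} [Fintype X] {z : X → Fin 2 → ℝ} (h : LineSS z)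
    (h0 : ∑ x, ∑ l, z x l = 0) : Good fun x => z x 0 - z x 1 := by
  intro β hβ
  simp only [Fin.sum_univ_two] at h0
  have h1 := h (fun x => β x + (z x 0 + z x 1) / 2) (by
    rw [sum_add_distrib, ← sum_div, h0]
    simpa using hβ)
  simp only [Fin.sum_univ_two] at h1
  rw [h0] at h1
  have e : ∀ x, ⌊z x 0 - (β x + (z x 0 + z x 1) / 2)⌋ + ⌊z x 1 - (β x + (z x 0 + z x 1) / 2)⌋ =
      ⌊(z x 0 - z x 1) / 2 - β x⌋ + ⌊-((z x 0 - z x 1) / 2) - β x⌋ := by
    intro x
    congr 2 <;> ring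
  rw [sum_congr rfl fun x _ => e x] at h1
  exact_mod_cast h1

end Pool.Agent.N858.P5
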