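import Pool.Agent.N858.P5.Beta

set_option autoImplicit false

/-!
A positive measure on `ℤ / N` for which the second Bernoulli function has mean zero along every
nontrivial character.
-/

open Finset

namespace Pool.Agent.N858.P5

/-- The product of the `p / (p - 1)` over the primes in `s` which do not divide `j`. -/
noncomputable def wt (s : Finset ℕ) (j : ℤ) : ℝ :=
  ∏ p ∈ s, if (p : ℤ) ∣ j then 1 else (p : ℝ) / (p - 1)

lemma wt_ge {s : Finset ℕ} (hs : ∀ p ∈ s, p.Prime) (j : ℤ) : 1 ≤ wt s j := by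
  unfold wt
  refine Finset.one_le_prod fun p hp => ?_
  split_ifs
  · exact le_rfl
  · have h1 : (2 : ℝ) ≤ p := by exact_mod_cast (hs p hp).two_le
    rw [le_div_iff₀ (by linarith)]
    linarith

lemma wt_add {s : Finset ℕ} {m : ℤ} (hm : ∀ p ∈ s, (p : ℤ) ∣ m) (j : ℤ) :
    wt s (j + m) = wt s j := by
  unfold wt
  refine prod_congr rfl fun p hp => ?_
  have : (p : ℤ) ∣ j + m ↔ (p : ℤ) ∣ j := (dvd_add_left (hm p hp))
  simp only [this]

lemma wt_mul {s : Finset ℕ} (hs : ∀ p ∈ s, p.Prime) {q : ℕ} (hq : q.Prime) (hqs : q ∉ s) (j : ℤ) :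
    wt s (q * j) = wt s j := by
  unfold wt
  refine prod_congr rfl fun p hp => ?_
  have : (p : ℤ) ∣ q * j ↔ (p : ℤ) ∣ j := by
    constructor
    · intro h
      rcases Int.Prime.dvd_mul' (hs p hp) h with h1 | h1
      · exfalso
        have h2 : p ∣ q := Int.natCast_dvd_natCast.1 h1
        rcases (Nat.dvd_prime hq).1 h2 with h3 | h3
        · exact (hs p hp).one_lt.ne' h3
        · exact hqs (h3 ▸ hp)
      · exact h1
    · exact fun h => Dvd.dvd.mul_left h _
  simp only [this]

/-- The mean along a nontrivial character. -/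
theorem nu_sum {N : ℕ} (hN : 0 < N) {x : ℤ} (hx : ¬ (N : ℤ) ∣ x) :
    psum N (fun j => wt N.primeFactors j * bet (j * x / N)) = 0 := by
  have hNr : (N : ℝ) ≠ 0 := by exact_mod_cast hN.ne'
  -- a prime dividing the order of the character
  set g : ℕ := Int.gcd x N with hg
  have hg0 : 0 < g := Int.gcd_pos_of_ne_zero_right _ (by exact_mod_cast hN.ne')
  obtain ⟨n, hn⟩ : g ∣ N := by
    have : (g : ℤ) ∣ N := Int.gcd_dvd_right _ _
    exact Int.natCast_dvd_natCast.1 this
  obtain ⟨x', hx'⟩ : (g : ℤ) ∣ x := Int.gcd_dvd_left _ _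
  have hcop : IsCoprime x' (n : ℤ) := by
    rw [Int.isCoprime_iff_gcd_eq_one]
    have h1 : Int.gcd ((g : ℤ) * x') ((g : ℤ) * n) = g * Int.gcd x' n := by
      rw [Int.gcd_mul_left, Int.natAbs_natCast]
    have h2 : ((N : ℕ) : ℤ) = (g : ℤ) * n := by rw [hn]; push_cast; ring
    rw [← hx', ← h2, ← hg] at h1
    exact (Nat.mul_right_cancel hg0 (by rw [one_mul, mul_comm]; exact h1)).symm
  have hn1 : n ≠ 1 := by
    rintro rfl
    apply hx
    rw [hn, mul_one, hx']
    exact dvd_mul_right _ _
  obtain ⟨p, hp, hpn⟩ := Nat.exists_prime_and_dvd hn1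
  have hpp : (0 : ℝ) < p := by exact_mod_cast hp.pos
  have hp1 : (p : ℝ) - 1 ≠ 0 := by
    have : (2 : ℝ) ≤ p := by exact_mod_cast hp.two_le
    linarith
  have hpx : ¬ (p : ℤ) ∣ x' := by
    intro h
    have h1 : IsUnit (p : ℤ) := hcop.isUnit_of_dvd' h (Int.natCast_dvd_natCast.2 hpn)
    rw [Int.isUnit_iff] at h1
    have := hp.two_le
    omega
  obtain ⟨n', hn'⟩ := hpn
  set M : ℕ := g * n' with hM
  have hNM : N = p * M := by rw [hn, hn', hM]; ring
  have hn'0 : 0 < n' := Nat.pos_of_ne_zero fun h => by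
    rw [hn', h] at hn
    simp at hn
    omega
  have hM0 : 0 < M := Nat.mul_pos hg0 hn'0
  -- the other primes
  set s : Finset ℕ := N.primeFactors.erase p with hs
  have hpN : p ∈ N.primeFactors := Nat.mem_primeFactors.2 ⟨hp, ⟨M, hNM⟩, hN.ne'⟩
  have hsp : ∀ q ∈ s, q.Prime := fun q hq => Nat.prime_of_mem_primeFactors (mem_of_mem_erase hq)
  have hsM : ∀ q ∈ s, (q : ℤ) ∣ M := by
    intro q hq
    have h1 : q ∣ p * M := hNM ▸ Nat.dvd_of_mem_primeFactors (mem_of_mem_erase hq)
    have h2 : ¬ q ∣ p := by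
      intro h
      rcases (Nat.dvd_prime hp).1 h with h3 | h3
      · exact (hsp q hq).one_lt.ne' h3
      · exact ne_of_mem_erase hq h3
    exact Int.natCast_dvd_natCast.2 (((hsp q hq).dvd_mul.1 h1).resolve_left h2)
  set u : ℕ := ∏ q ∈ s, q with hu
  have hsu : ∀ q ∈ s, (q : ℤ) ∣ u := fun q hq => Int.natCast_dvd_natCast.2 (dvd_prod_of_mem _ hq)
  have hpu : ¬ (p : ℤ) ∣ u := by
    intro h
    have h1 : p ∣ ∏ q ∈ s, q := Int.natCast_dvd_natCast.1 h
    rw [hp.prime.dvd_finsetProd_iff] at h1
    obtain ⟨q, hq, h2⟩ := h1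
    rcases (Nat.dvd_prime (hsp q hq)).1 h2 with h3 | h3
    · exact hp.one_lt.ne' h3
    · exact ne_of_mem_erase hq h3.symm
  set h : ℤ → ℝ := fun j => wt s j * bet (j * x / N) with hh
  set k : ℤ → ℝ := fun j => wt s j * bet (p * (j * x / N)) with hk
  have hhN : ∀ j, h (j + N) = h j := by
    intro j
    simp only [hh]
    rw [wt_add (fun q hq => by
      rw [hNM]; push_cast; exact Dvd.dvd.mul_left (hsM q hq) _)]
    congr 1
    rw [← bet_add_int (j * x / N) x]
    congr 1
    push_cast
    field_simp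
  have hkM : ∀ j, k (j + M) = k j := by
    intro j
    simp only [hk]
    rw [wt_add hsM]
    congr 1
    rw [← bet_add_int (p * (j * x / N)) x]
    congr 1
    have hNM' : (N : ℝ) = p * M := by rw [hNM]; push_cast; ring
    have hM0' : (M : ℝ) ≠ 0 := by exact_mod_cast hM0.ne'
    rw [hNM']
    push_cast
    field_simp
  -- the first sum
  have e1 : (p : ℝ) ^ 2 * psum N h = psum N k := by
    have f1 : ∀ i : ℕ, psum N (fun j => h (j + i * (n' * u))) = psum N h := fun i =>
      psum_add hN hhN _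
    have f2 : ∑ i ∈ range p, psum N (fun j => h (j + i * (n' * u))) = p * psum N h := by
      rw [sum_congr rfl fun i _ => f1 i, sum_const, card_range, nsmul_eq_mul]
    have f3 : ∀ j : ℤ, ∑ i ∈ range p, h (j + i * (n' * u)) = k j / p := by
      intro j
      have f4 : ∀ i : ℕ, h (j + i * (n' * u)) =
          wt s j * bet (j * x / N + ((i : ℤ) * ((u : ℤ) * x') : ℤ) / p) := by
        intro i
        simp only [hh]
        rw [wt_add (fun q hq => Dvd.dvd.mul_left (Dvd.dvd.mul_left (hsu q hq) _) _)]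
        congr 2
        have hNr' : (N : ℝ) = g * (p * n') := by rw [hn, hn']; push_cast; ring
        have hxr : (x : ℝ) = g * x' := by rw [hx']; push_cast; ring
        have hg0' : (g : ℝ) ≠ 0 := by exact_mod_cast hg0.ne'
        have hn0' : (n' : ℝ) ≠ 0 := by exact_mod_cast hn'0.ne'
        rw [hNr', hxr]
        push_cast
        field_simp
      rw [sum_congr rfl fun i _ => f4 i, ← mul_sum]
      have f5 : ∑ i ∈ range p, bet (j * x / N + ((i : ℤ) * ((u : ℤ) * x') : ℤ) / p) =
          ∑ i ∈ range p, bet (j * x / N + i / p) := by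
        have f6 := psum_unit (N := p) hp.pos (g := fun l : ℤ => bet (j * x / N + l / p)) (by
          intro l
          rw [← bet_add_int (j * x / N + l / p) 1]
          congr 1
          push_cast
          field_simp
          ring) (u := (u : ℤ) * x') (by
            rw [isCoprime_comm, (Nat.prime_iff_prime_int.1 hp).irreducible.coprime_iff_not_dvd]
            intro h
            rcases Int.Prime.dvd_mul' hp h with h1 | h1
            · exact hpu h1
            · exact hpx h1)
        unfold psum at f6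
        simpa using f6
      rw [f5, bet_distrib hp.pos]
      simp only [hk]
      ring
    have f4 : ∑ i ∈ range p, psum N (fun j => h (j + i * (n' * u))) = psum N k / p := by
      unfold psum
      rw [sum_comm, sum_div]
      exact sum_congr rfl fun j _ => f3 j
    rw [f2, eq_div_iff hpp.ne'] at f4
    rw [← f4]
    ring
  -- the second sum
  have e2 : (p : ℝ) * psum N (fun j => if (p : ℤ) ∣ j then h j else 0) = psum N k := by
    have f1 : psum N (fun j => if (p : ℤ) ∣ j then h j else 0) = psum M k := by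
      rw [hNM, psum_dvd hp.pos M h]
      refine psum_congr fun j => ?_
      simp only [hh, hk]
      rw [wt_mul hsp hp (notMem_erase _ _)]
      congr 2
      push_cast
      ring
    have f2 : psum N k = p * psum M k := by
      rw [hNM] 
      exact psum_mul hkM p
    rw [f1, f2]
  have e3 : psum N (fun j => wt N.primeFactors j * bet (j * x / N)) =
      (p : ℝ) / (p - 1) * psum N h -
        1 / (p - 1) * psum N (fun j => if (p : ℤ) ∣ j then h j else 0) := by
    unfold psum
    rw [mul_sum, mul_sum, ← sum_sub_distrib]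
    refine sum_congr rfl fun j _ => ?_
    have : wt N.primeFactors (j : ℤ) =
        (if (p : ℤ) ∣ (j : ℤ) then 1 else (p : ℝ) / (p - 1)) * wt s j := by
      unfold wt
      rw [hs, mul_prod_erase _ (fun q : ℕ => if (q : ℤ) ∣ (j : ℤ) then (1 : ℝ) else (q : ℝ) / (q - 1)) hpN]
    simp only [this, hh]
    split_ifs
    · field_simp
    · ring
  rw [e3]
  have e4 : psum N (fun j => if (p : ℤ) ∣ j then h j else 0) = p * psum N h := by
    have : (p : ℝ) * psum N (fun j => if (p : ℤ) ∣ j then h j else 0) = p * (p * psum N h) := by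
      rw [e2, ← e1]; ring
    exact mul_left_cancel₀ hpp.ne' this
  rw [e4]
  field_simp
  ring

/-- The mean along the trivial character. -/
theorem nu_triv {N : ℕ} {x : ℤ} (hN : 0 < N) (hx : (N : ℤ) ∣ x) :
    psum N (fun j => wt N.primeFactors j * bet (j * x / N)) =
      psum N (fun j => wt N.primeFactors j) / 6 := by
  unfold psum
  rw [sum_div]
  refine sum_congr rfl fun j _ => ?_
  obtain ⟨y, rfl⟩ := hx
  have hNr : (N : ℝ) ≠ 0 := by exact_mod_cast hN.ne'
  have : (((j : ℤ) : ℝ) * ((N * y : ℤ) : ℝ) / N) = ((j * y : ℤ) : ℝ) := by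
    push_cast
    field_simp
  simp only [this, bet_int]
  ring

/-- A combination of Bernoulli functions which is nonnegative everywhere on `ℤ` and in which the
trivial characters do not prevail vanishes. -/
theorem vanish {N : ℕ} (hN : 0 < N) {ι : Type*} (s : Finset ι) (δ : ι → ℝ) (x : ι → ℤ)
    (hpos : ∀ j : ℤ, 0 ≤ ∑ i ∈ s, δ i * bet (j * x i / N))
    (htriv : ∑ i ∈ s, (if (N : ℤ) ∣ x i then δ i else 0) ≤ 0) :
    ∑ i ∈ s, (if (N : ℤ) ∣ x i then δ i else 0) = 0 ∧
    ∀ j : ℕ, j < N → ∑ i ∈ s, δ i * bet (j * x i / N) = 0 := by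
  have hw : ∀ j : ℤ, 1 ≤ wt N.primeFactors j := fun j =>
    wt_ge (fun p hp => Nat.prime_of_mem_primeFactors hp) j
  have hsum : 0 < psum N (fun j => wt N.primeFactors j) :=
    sum_pos (fun j _ => zero_lt_one.trans_le (hw j)) (nonempty_range_iff.2 hN.ne')
  have h0 : ∑ j ∈ range N, wt N.primeFactors (j : ℤ) * ∑ i ∈ s, δ i * bet (j * x i / N) =
      psum N (fun j => wt N.primeFactors j) / 6 * ∑ i ∈ s, (if (N : ℤ) ∣ x i then δ i else 0) := by
    have h2 : ∑ j ∈ range N, wt N.primeFactors (j : ℤ) * ∑ i ∈ s, δ i * bet (j * x i / N) =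
        ∑ i ∈ s, δ i * psum N (fun j => wt N.primeFactors j * bet (j * x i / N)) := by
      unfold psum
      simp only [mul_sum]
      rw [sum_comm]
      refine sum_congr rfl fun i _ => sum_congr rfl fun j _ => ?_
      push_cast
      ring
    have h3 : ∀ i ∈ s, δ i * psum N (fun j => wt N.primeFactors j * bet (j * x i / N)) =
        psum N (fun j => wt N.primeFactors j) / 6 * (if (N : ℤ) ∣ x i then δ i else 0) := by
      intro i _
      split_ifs with h
      · rw [nu_triv hN h]; ring
      · rw [nu_sum hN h]; ring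
    rw [h2, sum_congr rfl h3, ← mul_sum]
  have h1 : ∑ j ∈ range N, wt N.primeFactors (j : ℤ) * ∑ i ∈ s, δ i * bet (j * x i / N) ≤ 0 := by
    rw [h0]
    exact mul_nonpos_of_nonneg_of_nonpos (by positivity) htriv
  have h2 : ∀ j ∈ range N, 0 ≤ wt N.primeFactors (j : ℤ) * ∑ i ∈ s, δ i * bet (j * x i / N) := by
    intro j _
    have := hpos j
    push_cast at this
    exact mul_nonneg (zero_le_one.trans (hw j)) this
  have h3 := (sum_eq_zero_iff_of_nonneg h2).1 (le_antisymm h1 (sum_nonneg h2))
  refine ⟨?_, ?_⟩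
  · have h4 := le_antisymm h1 (sum_nonneg h2)
    rw [h0] at h4
    rcases mul_eq_zero.1 h4 with h | h
    · linarith
    · exact h
  intro j hj
  have h4 := h3 j (mem_range.2 hj)
  rcases mul_eq_zero.1 h4 with h | h
  · have := hw j
    linarith
  · exact h

end Pool.Agent.N858.P5
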