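import Pool.Agent.N858.P5.Nu
import Pool.Agent.N858.P5.Fold

set_option autoImplicit false

/-!
Rank one families of differences of exponents at five points: relations from the members at which
one of the five points has scalar monodromy.
-/

open Finset

namespace Pool.Agent.N858.P5

lemma good_equiv {X Y : Type*} [Fintype X] [Fintype Y] (σ : X ≃ Y) {D : Y → ℝ} (hG : Good D) :
    Good fun x => D (σ x) := by
  intro β hβ
  have h := hG (fun y => β (σ.symm y)) (by
    rw [← Equiv.sum_comp σ]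
    simpa using hβ)
  rw [← Equiv.sum_comp σ] at h
  simpa using h

/-- The differences at the four points `1, 2, 3, 4`, at the member of the family at which the point
`0` is scalar. -/
noncomputable def D4 (a : Fin 5 → ℤ) (j : ℤ) (i : Fin 4) : ℝ :=
  j * a i.succ / a 0 + if i = 0 then (j : ℝ) else 0

lemma good_D4 {a : Fin 5 → ℤ} (ha : a 0 ≠ 0) (hG : ∀ t : ℝ, Good fun i => t * a i) (j : ℤ) :
    Good (D4 a j) := by
  have ha' : (a 0 : ℝ) ≠ 0 := by exact_mod_cast ha
  intro β hβ
  have h := hG (j / a 0) (Fin.cons (-(j / 2 : ℝ)) fun i => β i + if i = 0 then (j / 2 : ℝ) else 0) (by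
    rw [Fin.sum_univ_succ]
    simp only [Fin.cons_zero, Fin.cons_succ, sum_add_distrib, sum_ite_eq', mem_univ, if_true]
    linarith)
  rw [Fin.sum_univ_succ] at h
  simp only [Fin.cons_zero, Fin.cons_succ] at h
  have e0 : (j : ℝ) / a 0 * a 0 = j := by field_simp
  rw [e0] at h
  have e1 : ⌊(j : ℝ) / 2 - -((j : ℝ) / 2)⌋ = j := by
    have : (j : ℝ) / 2 - -((j : ℝ) / 2) = j := by ring
    rw [this, Int.floor_intCast]
  have e2 : ⌊-((j : ℝ) / 2) - -((j : ℝ) / 2)⌋ = 0 := by
    simp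
  rw [e1, e2] at h
  have e3 : ∀ i : Fin 4, ⌊(j : ℝ) / a 0 * a i.succ / 2 - (β i + if i = 0 then (j / 2 : ℝ) else 0)⌋ +
      ⌊-((j : ℝ) / a 0 * a i.succ / 2) - (β i + if i = 0 then (j / 2 : ℝ) else 0)⌋ =
      (⌊D4 a j i / 2 - β i⌋ + ⌊-(D4 a j i / 2) - β i⌋) - if i = 0 then j else 0 := by
    intro i
    unfold D4
    split_ifs with hi
    · have f1 : (j : ℝ) / a 0 * a i.succ / 2 - (β i + j / 2) =
          (j * a i.succ / a 0 + j) / 2 - β i - j := by ring
      have f2 : -((j : ℝ) / a 0 * a i.succ / 2) - (β i + j / 2) =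
          -((j * a i.succ / a 0 + j) / 2) - β i := by ring
      rw [f1, f2, Int.floor_sub_intCast]
      ring
    · have f1 : (j : ℝ) / a 0 * a i.succ / 2 - (β i + 0) =
          (j * a i.succ / a 0 + 0) / 2 - β i := by ring
      have f2 : -((j : ℝ) / a 0 * a i.succ / 2) - (β i + 0) =
          -((j * a i.succ / a 0 + 0) / 2) - β i := by ring
      rw [f1, f2]
      ring
  rw [sum_congr rfl fun i _ => e3 i, sum_sub_distrib, sum_ite_eq', if_pos (mem_univ _)] at h
  linarith

/-- The relation. -/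
theorem quad {a : Fin 5 → ℤ} (ha : 0 < a 0) (hG : ∀ t : ℝ, Good fun i => t * a i) :
    ∃ e : S4, 2 * a 0 ∣ sg e.1 * a 1 + sg e.2.1 * a 2 + sg e.2.2.1 * a 3 + sg e.2.2.2 * a 4 +
      a 0 := by
  classical
  by_contra hno
  push Not at hno
  obtain ⟨n, hn⟩ : ∃ n : ℕ, a 0 = n := ⟨(a 0).toNat, (Int.toNat_of_nonneg ha.le).symm⟩
  have hn0 : 0 < n := by
    rw [hn] at ha
    exact_mod_cast ha
  have ha' : (a 0 : ℝ) ≠ 0 := by exact_mod_cast ha.ne'
  set N : ℕ := 2 * n with hN
  have hN0 : 0 < N := by omega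
  have hNa : (N : ℤ) = 2 * a 0 := by rw [hN, hn]; push_cast; ring
  have hNr : (N : ℝ) = 2 * a 0 := by exact_mod_cast congrArg (fun z : ℤ => (z : ℝ)) hNa
  set x : S4 ⊕ Fin 4 → ℤ := Sum.elim
    (fun e => sg e.1 * a 1 + sg e.2.1 * a 2 + sg e.2.2.1 * a 3 + sg e.2.2.2 * a 4 + sg e.1 * a 0)
    (fun i => 2 * a i.succ + if i = 0 then 2 * a 0 else 0) with hx
  set δ : S4 ⊕ Fin 4 → ℝ := Sum.elim (fun _ => 1) (fun _ => -4) with hδ
  have hxe : ∀ e, ¬ (N : ℤ) ∣ x (Sum.inl e) := by
    intro e h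
    apply hno e
    have h1 : sg e.1 * a 1 + sg e.2.1 * a 2 + sg e.2.2.1 * a 3 + sg e.2.2.2 * a 4 + a 0 =
        x (Sum.inl e) + (a 0 - sg e.1 * a 0) := by
      simp only [hx, Sum.elim_inl]
      ring
    rw [h1, ← hNa]
    refine dvd_add h ?_
    rw [hNa]
    cases e.1
    · exact ⟨1, by rw [sg_false]; ring⟩
    · exact ⟨0, by rw [sg_true]; ring⟩
  have hsum : ∀ j : ℤ, ∑ i, δ i * bet (j * x i / N) = Ff (D4 a j) := by
    intro j
    rw [Fintype.sum_sum_type]
    unfold Ff
    rw [mul_sum, sub_eq_add_neg, ← sum_neg_distrib]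
    congr 1
    · refine sum_congr rfl fun e _ => ?_
      simp only [hδ, hx, Sum.elim_inl, one_mul]
      congr 1
      unfold Lf D4
      rw [hNr]
      simp only [Fin.succ_zero_eq_one, Fin.succ_one_eq_two, if_true]
      have f1 : (1 : Fin 4) ≠ 0 := by decide
      have f2 : (2 : Fin 4) ≠ 0 := by decide
      have f3 : (3 : Fin 4) ≠ 0 := by decide
      rw [if_neg f1, if_neg f2, if_neg f3]
      have g2 : (2 : Fin 4).succ = 3 := rfl
      have g3 : (3 : Fin 4).succ = 4 := rfl
      rw [g2, g3]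
      push_cast
      field_simp
      ring
    · refine sum_congr rfl fun i _ => ?_
      simp only [hδ, hx, Sum.elim_inr]
      rw [neg_mul]
      congr 3
      unfold D4
      rw [hNr]
      split_ifs <;> (push_cast; field_simp; try ring)
  obtain ⟨h1, h2⟩ := vanish hN0 univ δ x (fun j => by
    rw [hsum j]
    exact (Ff_nonneg (good_D4 ha.ne' hG j)).1) (by
    rw [Fintype.sum_sum_type]
    have e1 : ∑ e : S4, (if (N : ℤ) ∣ x (Sum.inl e) then δ (Sum.inl e) else 0) = 0 :=
      sum_eq_zero fun e _ => if_neg (hxe e)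
    rw [e1, zero_add]
    refine sum_nonpos fun i _ => ?_
    simp only [hδ, Sum.elim_inr]
    split_ifs <;> norm_num)
  have h3 := h2 1 (by omega)
  have h4 := hsum 1
  push_cast at h3 h4
  rw [h4] at h3
  rcases (Ff_nonneg (good_D4 ha.ne' hG 1)).2 h3 with ⟨i, z, hz⟩ | ⟨e, z, hz⟩
  · -- a scalar point
    have hd : (N : ℤ) ∣ x (Sum.inr i) := by
      refine ⟨z, ?_⟩
      have : (x (Sum.inr i) : ℝ) = N * z := by
        rw [← hz, hNr]
        unfold D4
        simp only [hx, Sum.elim_inr]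
        split_ifs <;> (push_cast; field_simp; try ring)
      exact_mod_cast this
    have h5 : ∑ i, (if (N : ℤ) ∣ x i then δ i else 0) ≤ -4 := by
      rw [Fintype.sum_sum_type]
      have e1 : ∑ e : S4, (if (N : ℤ) ∣ x (Sum.inl e) then δ (Sum.inl e) else 0) = 0 :=
        sum_eq_zero fun e _ => if_neg (hxe e)
      rw [e1, zero_add]
      have e2 : ∑ i : Fin 4, (if (N : ℤ) ∣ x (Sum.inr i) then δ (Sum.inr i) else 0) ≤
          ∑ k : Fin 4, (if k = i then (-4 : ℝ) else 0) := by
        refine sum_le_sum fun k _ => ?_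
        simp only [hδ, Sum.elim_inr]
        split_ifs with g1 g2 g2
        · exact le_rfl
        · norm_num
        · exact absurd (g2 ▸ hd) g1
        · exact le_rfl
      refine e2.trans ?_
      rw [sum_ite_eq', if_pos (mem_univ _)]
    rw [h1] at h5
    norm_num at h5
  · apply hxe e
    refine ⟨z, ?_⟩
    have : (x (Sum.inl e) : ℝ) = N * z := by
      rw [← hz, hNr]
      unfold Lf D4
      simp only [hx, Sum.elim_inl, Fin.succ_zero_eq_one, Fin.succ_one_eq_two, if_true]
      have f1 : (1 : Fin 4) ≠ 0 := by decide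
      have f2 : (2 : Fin 4) ≠ 0 := by decide
      have f3 : (3 : Fin 4) ≠ 0 := by decide
      rw [if_neg f1, if_neg f2, if_neg f3]
      have g2 : (2 : Fin 4).succ = 3 := rfl
      have g3 : (3 : Fin 4).succ = 4 := rfl
      rw [g2, g3]
      push_cast
      field_simp
      ring
    exact_mod_cast this

end Pool.Agent.N858.P5
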